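import Pool.Agent.R280.HC.C0
import Pool.Agent.R280.HC.C0H
import Pool.Agent.R280.HC.MU
import Pool.Agent.R280.HC.MD
import Pool.Agent.R280.HC.WL
import Pool.Agent.R280.HC.SA
import Pool.Agent.R280.HC.SB
import Pool.Agent.R280.HC.FL
import Pool.Agent.R280.HC.GC
import Pool.Agent.R280.HC.GD
import Pool.Agent.R280.HC.ND
import Pool.Agent.R280.HC.T1
import Pool.Agent.R280.HC.T1D
import Pool.Agent.R280.HC.T2
import Pool.Agent.R280.HC.T3
import Pool.Agent.R280.HC.T4
import Pool.Agent.R280.HC.TR
import Pool.Agent.R280.HC.L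
import Pool.Agent.R280.HC.LP
import Pool.Agent.R280.HC.NT
import Pool.Agent.R280.HC.UC
import Pool.Agent.R280.HC.PC
import Pool.Agent.R280.HC.PI
import Pool.Agent.R280.HC.Fin

/-!
# MP_65ee2d_an, Q1 (full answer: yes)

Let `K` be a non-empty compact metric space and `A ⊆ [0, dim_H K]` an analytic set. Then there is
a compact family `𝒞` of non-empty compact subsets of `K` (compact in the Hausdorff metric) with
`{dim_H C : C ∈ 𝒞} = A`.
-/

set_option autoImplicit false

open Set Metric MeasureTheory TopologicalSpace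
open scoped ENNReal

universe u

namespace Pool.Agent.Results.MP_65ee2d_an.CompactFamilies

open Pool.Agent.R280

/-- For every non-empty compact metric space `K` and every analytic set
`A ⊆ [0, dim_H K] ⊆ [0, ∞]` there is a compact family `𝒞` of non-empty compact subsets of `K`
with `{dim_H C : C ∈ 𝒞} = A`. -/
theorem result (K : Type u) [MetricSpace K] [CompactSpace K] [Nonempty K] (A : Set ℝ≥0∞)
    (hA : AnalyticSet A) (hAK : ∀ a ∈ A, a ≤ dimH (univ : Set K)) :
    ∃ 𝒞 : Set (NonemptyCompacts K), IsCompact 𝒞 ∧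
      (fun C : NonemptyCompacts K => dimH (C : Set K)) '' 𝒞 = A := by
  have hFL : HC.StmtFL.{u} := HC.FL.main HC.C0.main HC.WL.main HC.SA.main HC.SB.main
  have hGC : HC.StmtGC.{u} := HC.GC.main HC.C0.main
  have hGD : HC.StmtGD.{u} := HC.GD.main HC.MU.main hGC
  have hND : HC.StmtND.{u} := HC.ND.main HC.C0.main HC.SA.main HC.SB.main hFL hGD
  have hT1 : HC.StmtT1.{u} := HC.T1.main
  have hT4 : HC.StmtT4.{u} := HC.T4.main HC.WL.main HC.MD.main
  have hTR : HC.StmtTR.{u} := HC.TR.main hT1 (HC.T1D.main hT1) (HC.T2.main hT1) HC.T3.main hT4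
  have hL : HC.StmtL.{u} := HC.L.main HC.C0H.main hFL hGD hND hTR
  have hPI : HC.StmtPI.{u} := HC.PI.main HC.NT.main HC.UC.main HC.PC.main
  exact HC.Fin.main hL HC.LP.main hPI K A hA hAK

end Pool.Agent.Results.MP_65ee2d_an.CompactFamilies
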